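import Mathlib
import Pool.Agent.Helper58.LT.Defs

/-!
# HM block: definitions

`psq N q = ⌊N log (q / (q - 1))⌋`, `dl j x = x ^ j - (x - 1) ^ j`.
-/

namespace Pool.Agent.Helper73.HM

open Finset Pool.Agent.Helper58.LT

/-- the integer part of `N log (q / (q - 1))` -/
noncomputable def psq (N q : ℕ) : ℤ := ⌊(N : ℝ) * Real.log ((q : ℝ) / ((q : ℝ) - 1))⌋

/-- backward difference of the power function -/
def dl (j : ℕ) (x : ℤ) : ℤ := x ^ j - (x - 1) ^ j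

/-- the weights `(k+1)! / (i+2) * (-1)^(i+1)`, `i < k` -/
def cf (k : ℕ) (i : Fin k) : ℤ := ((k + 1).factorial / ((i : ℕ) + 2) : ℕ) * (-1) ^ ((i : ℕ) + 1)

/-- the integer vector of a pair of tuples -/
def wv {s : ℕ} (k : ℕ) (h h' : Fin s → ℤ) (i : Fin k) : ℤ :=
  cf k i * (∑ a, dl ((i : ℕ) + 2) (h a) - ∑ a, dl ((i : ℕ) + 2) (h' a))

end Pool.Agent.Helper73.HM
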