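import Mathlib
import Pool.Agent.Helper73.HM.Defs
import Pool.Agent.Helper58.LT.Cover

/-!
# The covering by short intervals
-/

namespace Pool.Agent.Helper73.HM

open Finset Pool.Agent.Helper58.LT

theorem cover_bound (Q N H s : ℕ) (hQ : 16 ≤ Q) (hH : 1 ≤ H) (hs : 1 ≤ s) (I : Finset ℕ)
    (hI : I ⊆ Icc Q (H * Q)) (M : ℕ)
    (hM : ∀ q, Q - Nat.sqrt Q ≤ q → q ≤ H * Q →
      Js (Icc (q + 1) (q + Nat.sqrt Q)) (psq N) s ≤ M) :
    (Nat.sqrt Q) ^ (2 * s) * Js I (psq N) s ≤ (H * Q) ^ (2 * s) * M := by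
  classical
  set Y := Nat.sqrt Q with hY
  have hY2 : Y * Y ≤ Q := Nat.sqrt_le Q
  have hYQ : Y ≤ Q := Nat.sqrt_le_self Q
  have hHQ : Q ≤ H * Q := Nat.le_mul_of_pos_left Q (by omega)
  set Qs : Finset ℕ := Icc (Q - Y) (H * Q - 1) with hQs
  set T : ℕ → Finset ℕ := fun q => {i ∈ I | q + 1 ≤ i ∧ i ≤ q + Y} with hT
  have hTI : ∀ q ∈ Qs, T q ⊆ I := fun q _ => Finset.filter_subset _ _
  have hTc : ∀ i ∈ I, #{q ∈ Qs | i ∈ T q} = Y := by
    intro i hi
    have hi' := mem_Icc.mp (hI hi)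
    have hset : {q ∈ Qs | i ∈ T q} = Icc (i - Y) (i - 1) := by
      ext q
      simp only [hQs, hT, mem_filter, mem_Icc]
      constructor
      · rintro ⟨⟨h1, h2⟩, h3, h4, h5⟩
        omega
      · rintro ⟨h1, h2⟩
        refine ⟨⟨by omega, by omega⟩, hi, by omega, by omega⟩
    rw [hset, Nat.card_Icc]
    omega
  have h1 := cover_holder_int I (psq N) Qs T Y hTI hTc s hs
  refine h1.trans ?_
  have hcard : #Qs ≤ H * Q := by
    rw [hQs, Nat.card_Icc]; omega
  have hsum : ∑ q ∈ Qs, Js (T q) (psq N) s ≤ (H * Q) * M := by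
    calc ∑ q ∈ Qs, Js (T q) (psq N) s ≤ ∑ q ∈ Qs, M := by
          apply Finset.sum_le_sum
          intro q hq
          have hq' := mem_Icc.mp hq
          refine le_trans ?_ (hM q hq'.1 (by omega))
          unfold Js
          apply en_mono
          intro x hx
          rw [mem_tup] at hx ⊢
          intro a
          have := (mem_filter.mp (hx a)).2
          rw [mem_Icc]; exact this
      _ = #Qs * M := by rw [Finset.sum_const, smul_eq_mul]
      _ ≤ (H * Q) * M := Nat.mul_le_mul_right _ hcard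
  calc #Qs ^ (2 * s - 1) * ∑ q ∈ Qs, Js (T q) (psq N) s
      ≤ (H * Q) ^ (2 * s - 1) * ((H * Q) * M) := Nat.mul_le_mul (Nat.pow_le_pow_left hcard _) hsum
    _ = (H * Q) ^ (2 * s) * M := by
        rw [← mul_assoc, ← pow_succ]
        congr 2
        omega

end Pool.Agent.Helper73.HM
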