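import Mathlib
import Pool.Agent.Helper73.HM.Defs

/-!
# Taylor expansion of `log ((q + h) / (q + h - 1))`
-/

namespace Pool.Agent.Helper73.HM

open Finset

/-- Taylor expansion of `log (1 + x)` for `0 ≤ x ≤ 1/3` -/
theorem log_one_add (x : ℝ) (hx : 0 ≤ x) (hx3 : x ≤ 1 / 3) (n : ℕ) :
    |Real.log (1 + x) - ∑ j ∈ Finset.range n, (-1 : ℝ) ^ j / (j + 1) * x ^ (j + 1)| ≤
      3 / 2 * x ^ (n + 1) := by
  have h1 : |(-x)| < 1 := by rw [abs_neg, abs_of_nonneg hx]; linarith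
  have h2 := Real.abs_log_sub_add_sum_range_le h1 n
  rw [abs_neg, abs_of_nonneg hx] at h2
  have h3 : (∑ i ∈ Finset.range n, (-x) ^ (i + 1) / (i + 1) + Real.log (1 - -x)) =
      Real.log (1 + x) - ∑ j ∈ Finset.range n, (-1 : ℝ) ^ j / (j + 1) * x ^ (j + 1) := by
    rw [sub_neg_eq_add, add_comm, sub_eq_add_neg, ← Finset.sum_neg_distrib]
    congr 1
    apply Finset.sum_congr rfl
    intro j _
    rw [neg_pow, pow_succ]; ring
  rw [h3] at h2
  refine h2.trans ?_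
  rw [div_le_iff₀ (by linarith)]
  have h4 : 0 ≤ x ^ (n + 1) := pow_nonneg hx _
  nlinarith

theorem taylor (k q Y h : ℕ) (h1 : 1 ≤ h) (h2 : h ≤ Y) (h3 : 3 * Y ≤ q) :
    |Real.log (((q + h : ℕ) : ℝ) / (((q + h : ℕ) : ℝ) - 1)) -
      ∑ j ∈ Finset.range (k + 1), (-1 : ℝ) ^ j / (j + 1) * ((dl (j + 1) (h : ℤ) : ℤ) : ℝ) /
        (q : ℝ) ^ (j + 1)| ≤ 3 * ((Y : ℝ) / q) ^ (k + 2) := by
  have hq0 : (0 : ℝ) < q := by
    have : 0 < q := by omega
    exact_mod_cast this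
  have hh : (1 : ℝ) ≤ h := by exact_mod_cast h1
  have hY : (h : ℝ) ≤ Y := by exact_mod_cast h2
  have hYq : 3 * (Y : ℝ) ≤ q := by exact_mod_cast h3
  set x : ℝ := h / q with hx
  set y : ℝ := (h - 1) / q with hy
  have hx0 : 0 ≤ x := by positivity
  have hy0 : 0 ≤ y := div_nonneg (by linarith) hq0.le
  have hxY : x ≤ Y / q := div_le_div_of_nonneg_right hY hq0.le
  have hyY : y ≤ Y / q := div_le_div_of_nonneg_right (by linarith) hq0.le
  have hY3 : (Y : ℝ) / q ≤ 1 / 3 := by rw [div_le_iff₀ hq0]; linarith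
  have hlog : Real.log (((q + h : ℕ) : ℝ) / (((q + h : ℕ) : ℝ) - 1)) =
      Real.log (1 + x) - Real.log (1 + y) := by
    have hx' : 1 + x = ((q : ℝ) + h) / q := by rw [hx, add_div, div_self hq0.ne']
    have hy' : 1 + y = ((q : ℝ) + h - 1) / q := by
      rw [hy, add_sub_assoc, add_div, div_self hq0.ne']
    rw [← Real.log_div (by positivity) (by positivity), hx', hy',
      div_div_div_cancel_right₀ hq0.ne']
    push_cast
    rfl
  have e1 := log_one_add x hx0 (hxY.trans hY3) (k + 1)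
  have e2 := log_one_add y hy0 (hyY.trans hY3) (k + 1)
  have hsum : ∑ j ∈ Finset.range (k + 1), (-1 : ℝ) ^ j / (j + 1) * ((dl (j + 1) (h : ℤ) : ℤ) : ℝ) /
        (q : ℝ) ^ (j + 1) = ∑ j ∈ Finset.range (k + 1), (-1 : ℝ) ^ j / (j + 1) * x ^ (j + 1) -
        ∑ j ∈ Finset.range (k + 1), (-1 : ℝ) ^ j / (j + 1) * y ^ (j + 1) := by
    rw [← Finset.sum_sub_distrib]
    apply Finset.sum_congr rfl
    intro j _
    rw [dl, hx, hy, div_pow, div_pow]
    push_cast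
    ring
  rw [hlog, hsum]
  have hp1 : x ^ (k + 1 + 1) ≤ ((Y : ℝ) / q) ^ (k + 2) := pow_le_pow_left₀ hx0 hxY _
  have hp2 : y ^ (k + 1 + 1) ≤ ((Y : ℝ) / q) ^ (k + 2) := pow_le_pow_left₀ hy0 hyY _
  have := abs_le.mp e1
  have := abs_le.mp e2
  rw [abs_le]
  constructor <;> linarith [e1, e2]

end Pool.Agent.Helper73.HM
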