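import Mathlib
import Pool.Agent.Helper73.HM.Defs
import Pool.Agent.Helper73.HM.Taylor

/-!
# The integer vector of a solution: bounds
-/

namespace Pool.Agent.Helper73.HM

open Finset Pool.Agent.Helper58.LT

theorem dl_nonneg (m : ℕ) (x : ℤ) (hx : 1 ≤ x) : 0 ≤ dl (m + 1) x := by
  rw [dl]
  have : (x - 1) ^ (m + 1) ≤ x ^ (m + 1) := pow_le_pow_left₀ (by linarith) (by linarith) _
  linarith

theorem dl_le (m : ℕ) (x : ℤ) (hx : 1 ≤ x) : dl (m + 1) x ≤ (m + 1) * x ^ m := by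
  induction m with
  | zero => simp [dl]
  | succ m ih =>
    rw [dl] at ih ⊢
    have h1 : 0 ≤ x ^ m := pow_nonneg (by linarith) _
    have h2 : x ^ (m + 1) - ((m : ℤ) + 1) * x ^ m ≤ (x - 1) ^ (m + 1) := by linarith
    have h3 := mul_le_mul_of_nonneg_left h2 (show (0 : ℤ) ≤ x - 1 by linarith)
    have h4 : (x - 1) * (x - 1) ^ (m + 1) = (x - 1) ^ (m + 1 + 1) := by ring
    have h5 : (x - 1) * (x ^ (m + 1) - ((m : ℤ) + 1) * x ^ m) =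
        x ^ (m + 1 + 1) - ((m : ℤ) + 1 + 1) * x ^ (m + 1) + ((m : ℤ) + 1) * x ^ m := by ring
    rw [h4, h5] at h3
    have h6 : 0 ≤ ((m : ℤ) + 1) * x ^ m := by positivity
    push_cast
    linarith

theorem wv_bound {s : ℕ} (k Y : ℕ) (h h' : Fin s → ℤ) (hh : ∀ a, h a ∈ Icc (1 : ℤ) Y)
    (hh' : ∀ a, h' a ∈ Icc (1 : ℤ) Y) (i : Fin k) :
    wv k h h' i ∈ Icc (-(((k + 1).factorial * s * Y ^ ((i : ℕ) + 1) : ℕ) : ℤ))
      (((k + 1).factorial * s * Y ^ ((i : ℕ) + 1) : ℕ) : ℤ) := by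
  have key : ∀ u : Fin s → ℤ, (∀ a, u a ∈ Icc (1 : ℤ) Y) →
      0 ≤ ∑ a, dl ((i : ℕ) + 2) (u a) ∧
      ∑ a, dl ((i : ℕ) + 2) (u a) ≤ s * ((((i : ℕ) : ℤ) + 2) * (Y : ℤ) ^ ((i : ℕ) + 1)) := by
    intro u hu
    constructor
    · exact Finset.sum_nonneg (fun a _ => dl_nonneg _ _ (mem_Icc.mp (hu a)).1)
    · calc ∑ a, dl ((i : ℕ) + 2) (u a) ≤ ∑ a : Fin s, ((((i : ℕ) : ℤ) + 2) * (Y : ℤ) ^ ((i : ℕ) + 1)) := by
            apply Finset.sum_le_sum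
            intro a _
            have hb := mem_Icc.mp (hu a)
            refine (dl_le ((i : ℕ) + 1) _ hb.1).trans ?_
            have h1 : (u a) ^ ((i : ℕ) + 1) ≤ (Y : ℤ) ^ ((i : ℕ) + 1) :=
              pow_le_pow_left₀ (by linarith [hb.1]) hb.2 _
            have h2 : (((i : ℕ) + 1 : ℕ) : ℤ) + 1 = ((i : ℕ) : ℤ) + 2 := by push_cast; ring
            rw [h2]
            exact mul_le_mul_of_nonneg_left h1 (by positivity)
        _ = s * ((((i : ℕ) : ℤ) + 2) * (Y : ℤ) ^ ((i : ℕ) + 1)) := by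
            rw [Finset.sum_const, Finset.card_univ, Fintype.card_fin, nsmul_eq_mul]
  obtain ⟨a1, a2⟩ := key h hh
  obtain ⟨b1, b2⟩ := key h' hh'
  have hd : (((k + 1).factorial / ((i : ℕ) + 2) : ℕ) : ℤ) * (((i : ℕ) : ℤ) + 2) =
      ((k + 1).factorial : ℤ) := by
    have : (k + 1).factorial / ((i : ℕ) + 2) * ((i : ℕ) + 2) = (k + 1).factorial :=
      Nat.div_mul_cancel (Nat.dvd_factorial (by omega) (by have := i.2; omega))
    exact_mod_cast this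
  have habs : |wv k h h' i| ≤ (((k + 1).factorial * s * Y ^ ((i : ℕ) + 1) : ℕ) : ℤ) := by
    rw [wv, cf, abs_mul, abs_mul, abs_pow, abs_neg, abs_one, one_pow, mul_one,
      abs_of_nonneg (by positivity)]
    have h1 : |∑ a, dl ((i : ℕ) + 2) (h a) - ∑ a, dl ((i : ℕ) + 2) (h' a)| ≤
        s * ((((i : ℕ) : ℤ) + 2) * (Y : ℤ) ^ ((i : ℕ) + 1)) := by
      rw [abs_le]; constructor <;> linarith
    calc (((k + 1).factorial / ((i : ℕ) + 2) : ℕ) : ℤ) *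
          |∑ a, dl ((i : ℕ) + 2) (h a) - ∑ a, dl ((i : ℕ) + 2) (h' a)|
        ≤ (((k + 1).factorial / ((i : ℕ) + 2) : ℕ) : ℤ) *
          (s * ((((i : ℕ) : ℤ) + 2) * (Y : ℤ) ^ ((i : ℕ) + 1))) :=
          mul_le_mul_of_nonneg_left h1 (by positivity)
      _ = ((((k + 1).factorial / ((i : ℕ) + 2) : ℕ) : ℤ) * (((i : ℕ) : ℤ) + 2)) *
          (s * (Y : ℤ) ^ ((i : ℕ) + 1)) := by ring
      _ = (((k + 1).factorial * s * Y ^ ((i : ℕ) + 1) : ℕ) : ℤ) := by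
          rw [hd]; push_cast; ring
  rw [mem_Icc]
  exact abs_le.mp habs

/-- floors: equal sums of integer parts -/
theorem floor_sum {s N : ℕ} (hN : 1 ≤ N) (u v : Fin s → ℝ)
    (h : ∑ a, ⌊(N : ℝ) * u a⌋ = ∑ a, ⌊(N : ℝ) * v a⌋) :
    |∑ a, u a - ∑ a, v a| ≤ s / N := by
  have hN0 : (0 : ℝ) < N := by exact_mod_cast hN
  have h1 : ((∑ a, ⌊(N : ℝ) * u a⌋ : ℤ) : ℝ) = ((∑ a, ⌊(N : ℝ) * v a⌋ : ℤ) : ℝ) := by rw [h]
  push_cast at h1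
  have key : ∀ w : Fin s → ℝ, ∑ a, ((⌊(N : ℝ) * w a⌋ : ℤ) : ℝ) ≤ N * ∑ a, w a ∧
      N * ∑ a, w a ≤ ∑ a, ((⌊(N : ℝ) * w a⌋ : ℤ) : ℝ) + s := by
    intro w
    constructor
    · rw [Finset.mul_sum]
      exact Finset.sum_le_sum (fun a _ => Int.floor_le _)
    · rw [Finset.mul_sum]
      calc ∑ a, (N : ℝ) * w a ≤ ∑ a : Fin s, (((⌊(N : ℝ) * w a⌋ : ℤ) : ℝ) + 1) :=
            Finset.sum_le_sum (fun a _ => (Int.lt_floor_add_one _).le)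
        _ = ∑ a, ((⌊(N : ℝ) * w a⌋ : ℤ) : ℝ) + s := by
            rw [Finset.sum_add_distrib]; simp
  obtain ⟨u1, u2⟩ := key u
  obtain ⟨v1, v2⟩ := key v
  rw [le_div_iff₀ hN0, ← abs_of_pos hN0, ← abs_mul, abs_le]
  constructor <;> nlinarith

theorem horner_eq {s : ℕ} (k q : ℕ) (hq : 1 ≤ q) (h h' : Fin s → ℤ) :
    ((∑ i : Fin k, wv k h h' i * (q : ℤ) ^ (k - 1 - (i : ℕ)) : ℤ) : ℝ) =
      ((k + 1).factorial : ℝ) * (q : ℝ) ^ (k + 1) *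
      (∑ a, ∑ j ∈ Finset.range (k + 1), (-1 : ℝ) ^ j / (j + 1) * ((dl (j + 1) (h a) : ℤ) : ℝ) /
        (q : ℝ) ^ (j + 1) -
      ∑ a, ∑ j ∈ Finset.range (k + 1), (-1 : ℝ) ^ j / (j + 1) * ((dl (j + 1) (h' a) : ℤ) : ℝ) /
        (q : ℝ) ^ (j + 1)) := by
  have hq0 : (0 : ℝ) < q := by exact_mod_cast hq
  have hA : ∀ u : Fin s → ℤ, ∑ a, ∑ j ∈ Finset.range (k + 1), (-1 : ℝ) ^ j / (j + 1) *
      ((dl (j + 1) (u a) : ℤ) : ℝ) / (q : ℝ) ^ (j + 1) =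
      s / q + ∑ i : Fin k, (-1 : ℝ) ^ ((i : ℕ) + 1) / ((i : ℕ) + 2) / (q : ℝ) ^ ((i : ℕ) + 2) *
        ∑ a, ((dl ((i : ℕ) + 2) (u a) : ℤ) : ℝ) := by
    intro u
    rw [Finset.sum_comm, Finset.sum_range_succ']
    rw [add_comm]
    congr 1
    · simp [dl]
      rw [div_eq_mul_inv]
    · rw [← Fin.sum_univ_eq_sum_range (fun i => ∑ y : Fin s, (-1 : ℝ) ^ (i + 1) / (((i + 1 : ℕ) : ℝ) + 1) *
        ((dl (i + 1 + 1) (u y) : ℤ) : ℝ) / (q : ℝ) ^ (i + 1 + 1)) k]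
      apply Finset.sum_congr rfl
      intro i _
      rw [Finset.mul_sum]
      apply Finset.sum_congr rfl
      intro a _
      have : (((i : ℕ) + 1 : ℕ) : ℝ) + 1 = ((i : ℕ) : ℝ) + 2 := by push_cast; ring
      rw [this]
      ring
  rw [hA h, hA h', add_sub_add_left_eq_sub, ← Finset.sum_sub_distrib, Finset.mul_sum]
  push_cast
  apply Finset.sum_congr rfl
  intro i _
  have hi : (i : ℕ) < k := i.2
  have hd : (((k + 1).factorial / ((i : ℕ) + 2) : ℕ) : ℝ) * (((i : ℕ) : ℝ) + 2) =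
      ((k + 1).factorial : ℝ) := by
    have : (k + 1).factorial / ((i : ℕ) + 2) * ((i : ℕ) + 2) = (k + 1).factorial :=
      Nat.div_mul_cancel (Nat.dvd_factorial (by omega) (by omega))
    exact_mod_cast this
  have hpow : (q : ℝ) ^ (k + 1) = (q : ℝ) ^ (k - 1 - (i : ℕ)) * (q : ℝ) ^ ((i : ℕ) + 2) := by
    rw [← pow_add]; congr 1; omega
  rw [← hd, hpow, wv, cf]
  simp only [Int.cast_mul, Int.cast_sum, Int.cast_sub, Int.cast_pow, Int.cast_neg, Int.cast_one,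
    Int.cast_natCast]
  have h2 : (((i : ℕ) : ℝ) + 2) ≠ 0 := by positivity
  have h3 : (q : ℝ) ^ ((i : ℕ) + 2) ≠ 0 := by positivity
  field_simp

theorem horner_bound {s : ℕ} (k q Y N : ℕ) (hN : 1 ≤ N) (hY : 1 ≤ Y) (h3 : 3 * Y ≤ q)
    (T : ℕ) (hT : ((k + 1).factorial : ℝ) * (q : ℝ) ^ (k + 1) *
      (s / N + 6 * s * ((Y : ℝ) / q) ^ (k + 2)) ≤ T)
    (h h' : Fin s → ℕ) (hh : ∀ a, h a ∈ Icc 1 Y) (hh' : ∀ a, h' a ∈ Icc 1 Y)
    (heq : ∑ a, psq N (q + h a) = ∑ a, psq N (q + h' a)) :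
    |∑ i : Fin k, wv k (fun a => (h a : ℤ)) (fun a => (h' a : ℤ)) i *
      (q : ℤ) ^ (k - 1 - (i : ℕ))| ≤ (T : ℤ) := by
  have hq : 1 ≤ q := by omega
  have hq0 : (0 : ℝ) < q := by exact_mod_cast hq
  have h1 := floor_sum hN (fun a => Real.log (((q + h a : ℕ) : ℝ) / (((q + h a : ℕ) : ℝ) - 1)))
    (fun a => Real.log (((q + h' a : ℕ) : ℝ) / (((q + h' a : ℕ) : ℝ) - 1))) heq
  have key : ∀ u : Fin s → ℕ, (∀ a, u a ∈ Icc 1 Y) →
      |∑ a, Real.log (((q + u a : ℕ) : ℝ) / (((q + u a : ℕ) : ℝ) - 1)) -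
        ∑ a, ∑ j ∈ Finset.range (k + 1), (-1 : ℝ) ^ j / (j + 1) *
          ((dl (j + 1) ((u a : ℕ) : ℤ) : ℤ) : ℝ) / (q : ℝ) ^ (j + 1)| ≤
      s * (3 * ((Y : ℝ) / q) ^ (k + 2)) := by
    intro u hu
    rw [← Finset.sum_sub_distrib]
    refine (Finset.abs_sum_le_sum_abs _ _).trans ?_
    calc _ ≤ ∑ a : Fin s, 3 * ((Y : ℝ) / q) ^ (k + 2) := by
          apply Finset.sum_le_sum
          intro a _
          have hb := mem_Icc.mp (hu a)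
          exact taylor k q Y (u a) hb.1 hb.2 h3
      _ = s * (3 * ((Y : ℝ) / q) ^ (k + 2)) := by
          rw [Finset.sum_const, Finset.card_univ, Fintype.card_fin, nsmul_eq_mul]
  have k1 := key h hh
  have k2 := key h' hh'
  have h4 := horner_eq k q hq (fun a => (h a : ℤ)) (fun a => (h' a : ℤ))
  have h5 : |((∑ i : Fin k, wv k (fun a => (h a : ℤ)) (fun a => (h' a : ℤ)) i *
      (q : ℤ) ^ (k - 1 - (i : ℕ)) : ℤ) : ℝ)| ≤ T := by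
    rw [h4, abs_mul, abs_of_nonneg (by positivity)]
    refine le_trans (mul_le_mul_of_nonneg_left ?_ (by positivity)) hT
    rw [abs_le] at h1 k1 k2 ⊢
    constructor <;> linarith [h1.1, h1.2, k1.1, k1.2, k2.1, k2.2]
  have h6 : ((|∑ i : Fin k, wv k (fun a => (h a : ℤ)) (fun a => (h' a : ℤ)) i *
      (q : ℤ) ^ (k - 1 - (i : ℕ))| : ℤ) : ℝ) ≤ ((T : ℤ) : ℝ) := by
    rw [Int.cast_abs]; exact_mod_cast h5
  exact_mod_cast h6

end Pool.Agent.Helper73.HM
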