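import Mathlib

/-!
# Counting integer vectors with a small Horner value
-/

namespace Pool.Agent.Helper73.HM

open Finset

/-- the number of integers of `[-B, B]` in a residue class modulo `q` -/
theorem card_residue_le (q : ℕ) (hq : 1 ≤ q) (B : ℕ) (M : ℤ) :
    #{w ∈ Icc (-(B : ℤ)) B | (q : ℤ) ∣ M - w} ≤ 2 * B / q + 1 := by
  classical
  -- the map `w ↦ (M - w) / q` ... use that the set injects into an interval of length `2B/q`
  have hq' : (0 : ℤ) < q := by exact_mod_cast hq
  set S := {w ∈ Icc (-(B : ℤ)) B | (q : ℤ) ∣ M - w} with hS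
  rcases S.eq_empty_or_nonempty with h0 | hne
  · rw [h0]; simp
  · -- minimal element
    set m := S.min' hne with hm
    have hmS : m ∈ S := S.min'_mem hne
    have hmb := (mem_filter.mp hmS).1
    have hmd := (mem_filter.mp hmS).2
    rw [mem_Icc] at hmb
    have hinj : Set.InjOn (fun w : ℤ => ((w - m) / q).toNat) (S : Set ℤ) := by
      intro a ha b hb hab
      have ha' := mem_filter.mp (by simpa using ha : a ∈ S)
      have hb' := mem_filter.mp (by simpa using hb : b ∈ S)
      have ham : m ≤ a := S.min'_le a (by simpa using ha)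
      have hbm : m ≤ b := S.min'_le b (by simpa using hb)
      have hda : (q : ℤ) ∣ a - m := by
        have := dvd_sub hmd ha'.2
        have h2 : M - m - (M - a) = a - m := by ring
        rwa [h2] at this
      have hdb : (q : ℤ) ∣ b - m := by
        have := dvd_sub hmd hb'.2
        have h2 : M - m - (M - b) = b - m := by ring
        rwa [h2] at this
      obtain ⟨u, hu⟩ := hda
      obtain ⟨v, hv⟩ := hdb
      have hab' : ((a - m) / q).toNat = ((b - m) / q).toNat := hab
      rw [hu, hv, Int.mul_ediv_cancel_left _ hq'.ne', Int.mul_ediv_cancel_left _ hq'.ne'] at hab'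
      have hu0 : 0 ≤ u := by
        have : 0 ≤ (q : ℤ) * u := by rw [← hu]; linarith
        exact nonneg_of_mul_nonneg_right this hq'
      have hv0 : 0 ≤ v := by
        have : 0 ≤ (q : ℤ) * v := by rw [← hv]; linarith
        exact nonneg_of_mul_nonneg_right this hq'
      have huv : u = v := by omega
      have : a - m = b - m := by rw [hu, hv, huv]
      linarith
    have hmap : ∀ w ∈ S, ((w - m) / q).toNat ∈ Finset.range (2 * B / q + 1) := by
      intro w hw
      have hw' := mem_filter.mp hw
      have hb := mem_Icc.mp hw'.1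
      rw [Finset.mem_range]
      have h1 : (w - m) / (q : ℤ) ≤ ((2 * B / q : ℕ) : ℤ) := by
        have h2 : w - m ≤ ((2 * B : ℕ) : ℤ) := by push_cast; linarith [hb.2, hmb.1]
        have h3 := Int.ediv_le_ediv hq' h2
        rw [Int.natCast_div]
        exact h3
      have h4 : ((w - m) / (q : ℤ)).toNat ≤ 2 * B / q := Int.toNat_le.mpr h1
      exact Nat.lt_succ_of_le h4
    calc #S ≤ #(Finset.range (2 * B / q + 1)) := Finset.card_le_card_of_injOn _ hmap hinj
      _ = 2 * B / q + 1 := Finset.card_range _

theorem count_fix (q : ℕ) (hq : 1 ≤ q) (k : ℕ) (B : Fin k → ℕ) (M : ℤ) :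
    #{w ∈ Fintype.piFinset (fun i => Icc (-(B i : ℤ)) (B i)) |
      ∑ i : Fin k, w i * (q : ℤ) ^ (k - 1 - (i : ℕ)) = M} ≤
      ∏ i : Fin k, (if (i : ℕ) = 0 then 1 else (2 * B i / q + 1)) := by
  classical
  induction k generalizing M with
  | zero =>
    refine (Finset.card_filter_le _ _).trans ?_
    simp
  | succ k ih =>
    rcases Nat.eq_zero_or_pos k with hk0 | hkpos
    · subst hk0
      -- one variable
      have hle : #{w ∈ Fintype.piFinset (fun i : Fin (0 + 1) => Icc (-(B i : ℤ)) (B i)) |
          ∑ i : Fin (0 + 1), w i * (q : ℤ) ^ (0 + 1 - 1 - (i : ℕ)) = M} ≤ 1 := by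
        rw [Finset.card_le_one]
        intro a ha b hb
        have ha' := (mem_filter.mp ha).2
        have hb' := (mem_filter.mp hb).2
        simp at ha' hb'
        funext i
        have : i = 0 := Fin.ext (by have := i.2; simp)
        rw [this, ha', hb']
      refine hle.trans ?_
      simp
    · -- split off the last coordinate
      set S := {w ∈ Fintype.piFinset (fun i : Fin (k + 1) => Icc (-(B i : ℤ)) (B i)) |
          ∑ i : Fin (k + 1), w i * (q : ℤ) ^ (k + 1 - 1 - (i : ℕ)) = M} with hS
      have hrec : ∀ w : Fin (k + 1) → ℤ, ∑ i : Fin (k + 1), w i * (q : ℤ) ^ (k + 1 - 1 - (i : ℕ)) =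
          q * (∑ i : Fin k, w i.castSucc * (q : ℤ) ^ (k - 1 - (i : ℕ))) + w (Fin.last k) := by
        intro w
        rw [Fin.sum_univ_castSucc, Finset.mul_sum]
        congr 1
        · apply Finset.sum_congr rfl
          intro i _
          have hi : (i : ℕ) < k := i.2
          have : k + 1 - 1 - (i.castSucc : ℕ) = (k - 1 - (i : ℕ)) + 1 := by
            simp; omega
          rw [this, pow_succ]; ring
        · simp
      have hcard : #S ≤ ∑ v ∈ {v ∈ Icc (-(B (Fin.last k) : ℤ)) (B (Fin.last k)) | (q : ℤ) ∣ M - v},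
          ∏ i : Fin k, (if (i : ℕ) = 0 then 1 else (2 * B i.castSucc / q + 1)) := by
        have hmaps : ∀ w ∈ S, w (Fin.last k) ∈
            {v ∈ Icc (-(B (Fin.last k) : ℤ)) (B (Fin.last k)) | (q : ℤ) ∣ M - v} := by
          intro w hw
          have hw' := mem_filter.mp hw
          rw [mem_filter]
          refine ⟨(Fintype.mem_piFinset.mp hw'.1) _, ?_⟩
          have h2 := hw'.2
          rw [hrec] at h2
          refine ⟨∑ i : Fin k, w i.castSucc * (q : ℤ) ^ (k - 1 - (i : ℕ)), ?_⟩
          linarith
        rw [Finset.card_eq_sum_card_fiberwise hmaps]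
        apply Finset.sum_le_sum
        intro v hv
        have hv' := mem_filter.mp hv
        obtain ⟨u, hu⟩ := hv'.2
        refine le_trans ?_ (ih (fun i => B i.castSucc) u)
        apply Finset.card_le_card_of_injOn (fun w => fun i : Fin k => w i.castSucc)
        · intro w hw
          have hw1 : w ∈ S ∧ w (Fin.last k) = v := by
            simpa using hw
          have hw2 := mem_filter.mp hw1.1
          simp only [Finset.coe_filter, Set.mem_ofPred_eq]
          refine ⟨Fintype.mem_piFinset.mpr (fun i => (Fintype.mem_piFinset.mp hw2.1) _), ?_⟩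
          have h3 := hw2.2
          rw [hrec, hw1.2] at h3
          have hq' : (0 : ℤ) < q := by exact_mod_cast hq
          have h4 : (q : ℤ) * (∑ i : Fin k, w i.castSucc * (q : ℤ) ^ (k - 1 - (i : ℕ))) = q * u := by
            rw [← hu]; linarith
          exact mul_left_cancel₀ hq'.ne' h4
        · intro a ha b hb hab
          have ha1 : a ∈ S ∧ a (Fin.last k) = v := by simpa using ha
          have hb1 : b ∈ S ∧ b (Fin.last k) = v := by simpa using hb
          funext i
          refine Fin.lastCases ?_ ?_ i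
          · rw [ha1.2, hb1.2]
          · intro j
            exact congrFun hab j
      refine hcard.trans ?_
      rw [Finset.sum_const, smul_eq_mul, Fin.prod_univ_castSucc]
      have hlast : (if ((Fin.last k : Fin (k + 1)) : ℕ) = 0 then 1 else (2 * B (Fin.last k) / q + 1)) =
          2 * B (Fin.last k) / q + 1 := by
        rw [if_neg]
        simp; omega
      rw [hlast, mul_comm]
      exact Nat.mul_le_mul (le_of_eq (by simp)) (card_residue_le q hq _ _)

theorem count_le (q : ℕ) (hq : 1 ≤ q) (k : ℕ) (B : Fin k → ℕ) (T : ℕ) :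
    #{w ∈ Fintype.piFinset (fun i => Icc (-(B i : ℤ)) (B i)) |
      |∑ i : Fin k, w i * (q : ℤ) ^ (k - 1 - (i : ℕ))| ≤ T} ≤
      (2 * T + 1) * ∏ i : Fin k, (if (i : ℕ) = 0 then 1 else (2 * B i / q + 1)) := by
  classical
  set S := {w ∈ Fintype.piFinset (fun i => Icc (-(B i : ℤ)) (B i)) |
      |∑ i : Fin k, w i * (q : ℤ) ^ (k - 1 - (i : ℕ))| ≤ T} with hS
  have hmaps : ∀ w ∈ S, (∑ i : Fin k, w i * (q : ℤ) ^ (k - 1 - (i : ℕ))) ∈ Icc (-(T : ℤ)) T := by
    intro w hw
    have hw' := (mem_filter.mp hw).2
    rw [mem_Icc]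
    exact abs_le.mp hw'
  rw [Finset.card_eq_sum_card_fiberwise hmaps]
  calc ∑ b ∈ Icc (-(T : ℤ)) T, #{a ∈ S | ∑ i : Fin k, a i * (q : ℤ) ^ (k - 1 - (i : ℕ)) = b}
      ≤ ∑ b ∈ Icc (-(T : ℤ)) T, ∏ i : Fin k, (if (i : ℕ) = 0 then 1 else (2 * B i / q + 1)) := by
        apply Finset.sum_le_sum
        intro b _
        refine le_trans (Finset.card_le_card ?_) (count_fix q hq k B b)
        intro w hw
        rw [mem_filter] at hw ⊢
        exact ⟨(mem_filter.mp hw.1).1, hw.2⟩
    _ = (2 * T + 1) * ∏ i : Fin k, (if (i : ℕ) = 0 then 1 else (2 * B i / q + 1)) := by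
        rw [Finset.sum_const, smul_eq_mul, Int.card_Icc]
        congr 1
        omega

end Pool.Agent.Helper73.HM
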