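import Mathlib
import Pool.Agent.Helper73.HM.Defs

/-!
# The differences determine the power sums
-/

namespace Pool.Agent.Helper73.HM

open Finset Pool.Agent.Helper58.LT

/-- signed sum of `f` over four tuples -/
def E4 {s : ℕ} (h h' g g' : Fin s → ℤ) (f : ℤ → ℤ) : ℤ :=
  (∑ i, f (h i) - ∑ i, f (h' i)) - (∑ i, f (g i) - ∑ i, f (g' i))

theorem pow_zero_of_dl {s k : ℕ} (h h' g g' : Fin s → ℤ)
    (H : ∀ j ∈ Icc 2 (k + 1), E4 h h' g g' (dl j) = 0) :
    ∀ m, m ≤ k → E4 h h' g g' (fun x => x ^ m) = 0 := by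
  intro m
  induction m using Nat.strong_induction_on with
  | _ m ih =>
    intro hm
    rcases Nat.eq_zero_or_pos m with h0 | hpos
    · subst h0
      simp [E4]
    · -- dl (m+1) x = -(sum_{i < m+1} C(m+1,i) x^i (-1)^(m+1-i))
      have hdl : ∀ x : ℤ, dl (m + 1) x = ((m : ℤ) + 1) * x ^ m -
          ∑ i ∈ Finset.range m, ((m + 1).choose i : ℤ) * (-1) ^ (m + 1 - i) * x ^ i := by
        intro x
        rw [dl, sub_eq_add_neg x 1, add_pow, Finset.sum_range_succ, Finset.sum_range_succ]
        simp only [Nat.choose_self, Nat.choose_succ_self_right, Nat.sub_self, pow_zero,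
          Nat.add_sub_cancel_left, Nat.cast_one, mul_one, pow_one]
        have : ∑ i ∈ Finset.range m, ((m + 1).choose i : ℤ) * (-1) ^ (m + 1 - i) * x ^ i =
            ∑ i ∈ Finset.range m, x ^ i * (-1) ^ (m + 1 - i) * ((m + 1).choose i : ℤ) := by
          apply Finset.sum_congr rfl
          intro i _; ring
        rw [this]
        push_cast
        ring
      have h1 := H (m + 1) (by rw [mem_Icc]; omega)
      have hlin : E4 h h' g g' (dl (m + 1)) = ((m : ℤ) + 1) * E4 h h' g g' (fun x => x ^ m) -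
          ∑ i ∈ Finset.range m, ((m + 1).choose i : ℤ) * (-1) ^ (m + 1 - i) *
            E4 h h' g g' (fun x => x ^ i) := by
        have hS : ∀ u : Fin s → ℤ, ∑ a, dl (m + 1) (u a) = ((m : ℤ) + 1) * (∑ a, (u a) ^ m) -
            ∑ i ∈ Finset.range m, ((m + 1).choose i : ℤ) * (-1) ^ (m + 1 - i) * (∑ a, (u a) ^ i) := by
          intro u
          simp_rw [hdl]
          rw [Finset.sum_sub_distrib, Finset.mul_sum, Finset.sum_comm]
          congr 1
          apply Finset.sum_congr rfl
          intro i _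
          rw [Finset.mul_sum]
        simp only [E4]
        rw [hS h, hS h', hS g, hS g']
        simp_rw [mul_sub]
        simp only [Finset.sum_sub_distrib]
        ring
      rw [hlin] at h1
      have h2 : ∑ i ∈ Finset.range m, ((m + 1).choose i : ℤ) * (-1) ^ (m + 1 - i) *
            E4 h h' g g' (fun x => x ^ i) = 0 := by
        apply Finset.sum_eq_zero
        intro i hi
        rw [Finset.mem_range] at hi
        rw [ih i hi (by omega), mul_zero]
      rw [h2, sub_zero] at h1
      rcases mul_eq_zero.mp h1 with h3 | h3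
      · omega
      · exact h3

theorem triangular {s k : ℕ} (h h' g g' : Fin s → ℤ)
    (H : ∀ j ∈ Icc 2 (k + 1), ∑ i, dl j (h i) - ∑ i, dl j (h' i) =
      ∑ i, dl j (g i) - ∑ i, dl j (g' i)) :
    sm' (vino k) h = sm' (vino k) h' + (sm' (vino k) g - sm' (vino k) g') := by
  have H' : ∀ j ∈ Icc 2 (k + 1), E4 h h' g g' (dl j) = 0 := by
    intro j hj
    rw [E4, H j hj, sub_self]
  have h1 := pow_zero_of_dl h h' g g' H'
  funext i
  have h2 := h1 ((i : ℕ) + 1) i.2
  simp only [E4] at h2
  simp only [sm', vino, Pi.add_apply, Pi.sub_apply, Finset.sum_apply]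
  linarith

theorem wv_injective {s k : ℕ} (h h' g g' : Fin s → ℤ) (H : wv k h h' = wv k g g') :
    sm' (vino k) h = sm' (vino k) h' + (sm' (vino k) g - sm' (vino k) g') := by
  apply triangular
  intro j hj
  rw [mem_Icc] at hj
  have h1 := congrFun H ⟨j - 2, by omega⟩
  simp only [wv] at h1
  have hj2 : j - 2 + 2 = j := by omega
  rw [hj2] at h1
  refine mul_left_cancel₀ ?_ h1
  rw [cf]
  simp only
  rw [hj2]
  apply mul_ne_zero
  · have : 0 < (k + 1).factorial / j :=
      Nat.div_pos (Nat.le_of_dvd (Nat.factorial_pos _)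
        (Nat.dvd_factorial (by omega) hj.2)) (by omega)
    exact_mod_cast this.ne'
  · exact pow_ne_zero _ (by norm_num)

end Pool.Agent.Helper73.HM
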