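import Mathlib
import Pool.Agent.Helper73.HM.Count
import Pool.Agent.Helper73.HM.Triangular
import Pool.Agent.Helper73.HM.Approx
import Pool.Agent.Helper58.LT.Pos

/-!
# The number of solutions in one short interval
-/

namespace Pool.Agent.Helper73.HM

open Finset Pool.Agent.Helper58.LT

/-- pairs of tuples whose integer vector is a given one -/
theorem fiber_le (s k Y : ℕ) (w : Fin k → ℤ) :
    #{z ∈ (tup (Icc (1 : ℤ) Y) s) ×ˢ (tup (Icc (1 : ℤ) Y) s) | wv k z.1 z.2 = w} ≤ JV s k Y := by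
  classical
  set S := {z ∈ (tup (Icc (1 : ℤ) Y) s) ×ˢ (tup (Icc (1 : ℤ) Y) s) | wv k z.1 z.2 = w} with hS
  rcases S.eq_empty_or_nonempty with h0 | ⟨g, hg⟩
  · rw [h0]; simp
  · have hg' := (mem_filter.mp hg).2
    refine le_trans (Finset.card_le_card ?_) (en_shift_le (tup (Icc (1 : ℤ) Y) s) (sm' (vino k))
      (sm' (vino k) g.1 - sm' (vino k) g.2))
    intro z hz
    have hz' := mem_filter.mp hz
    rw [mem_filter]
    refine ⟨hz'.1, ?_⟩
    exact wv_injective z.1 z.2 g.1 g.2 (hz'.2.trans hg'.symm)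

theorem fixed_q (k q Y N s : ℕ) (hN : 1 ≤ N) (hY : 1 ≤ Y) (h3 : 3 * Y ≤ q) (T : ℕ)
    (hT : ((k + 1).factorial : ℝ) * (q : ℝ) ^ (k + 1) *
      (s / N + 6 * s * ((Y : ℝ) / q) ^ (k + 2)) ≤ T) :
    Js (Icc (q + 1) (q + Y)) (psq N) s ≤
      ((2 * T + 1) * ∏ i : Fin k, (if (i : ℕ) = 0 then 1 else
        (2 * ((k + 1).factorial * s * Y ^ ((i : ℕ) + 1)) / q + 1))) * JV s k Y := by
  classical
  have hq : 1 ≤ q := by omega
  set V := tup (Icc (1 : ℤ) Y) s with hV
  set W := {w ∈ Fintype.piFinset (fun i : Fin k =>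
      Icc (-(((k + 1).factorial * s * Y ^ ((i : ℕ) + 1) : ℕ) : ℤ))
        (((k + 1).factorial * s * Y ^ ((i : ℕ) + 1) : ℕ) : ℤ)) |
      |∑ i : Fin k, w i * (q : ℤ) ^ (k - 1 - (i : ℕ))| ≤ T} with hW
  set S := {z ∈ V ×ˢ V | wv k z.1 z.2 ∈ W} with hS
  have h1 : Js (Icc (q + 1) (q + Y)) (psq N) s ≤ #S := by
    rw [Js, en]
    apply Finset.card_le_card_of_injOn
      (fun z => ((fun a => ((z.1 a - q : ℕ) : ℤ)), (fun a => ((z.2 a - q : ℕ) : ℤ))))
    · intro z hz
      have hz' := mem_filter.mp (by simpa using hz : z ∈ {z ∈ tup (Icc (q + 1) (q + Y)) s ×ˢ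
        tup (Icc (q + 1) (q + Y)) s | sm' (psq N) z.1 = sm' (psq N) z.2})
      have hz1 := mem_product.mp hz'.1
      have m1 : ∀ a, z.1 a ∈ Icc (q + 1) (q + Y) := mem_tup.mp hz1.1
      have m2 : ∀ a, z.2 a ∈ Icc (q + 1) (q + Y) := mem_tup.mp hz1.2
      have n1 : ∀ a, z.1 a - q ∈ Icc 1 Y := by
        intro a; have := mem_Icc.mp (m1 a); rw [mem_Icc]; omega
      have n2 : ∀ a, z.2 a - q ∈ Icc 1 Y := by
        intro a; have := mem_Icc.mp (m2 a); rw [mem_Icc]; omega
      have c1 : ∀ a, ((z.1 a - q : ℕ) : ℤ) ∈ Icc (1 : ℤ) Y := by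
        intro a; have := mem_Icc.mp (n1 a); rw [mem_Icc]; omega
      have c2 : ∀ a, ((z.2 a - q : ℕ) : ℤ) ∈ Icc (1 : ℤ) Y := by
        intro a; have := mem_Icc.mp (n2 a); rw [mem_Icc]; omega
      have heq : ∑ a, psq N (q + (z.1 a - q)) = ∑ a, psq N (q + (z.2 a - q)) := by
        have e1 : ∀ a, q + (z.1 a - q) = z.1 a := by
          intro a; have := mem_Icc.mp (m1 a); omega
        have e2 : ∀ a, q + (z.2 a - q) = z.2 a := by
          intro a; have := mem_Icc.mp (m2 a); omega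
        simp_rw [e1, e2]
        exact hz'.2
      have hb := horner_bound k q Y N hN hY h3 T hT (fun a => z.1 a - q) (fun a => z.2 a - q)
        n1 n2 heq
      have hmem : ((fun a => ((z.1 a - q : ℕ) : ℤ)), (fun a => ((z.2 a - q : ℕ) : ℤ))) ∈ S := by
        rw [hS, mem_filter, mem_product]
        refine ⟨⟨mem_tup.mpr c1, mem_tup.mpr c2⟩, ?_⟩
        rw [hW, mem_filter]
        refine ⟨Fintype.mem_piFinset.mpr (fun i => ?_), hb⟩
        exact wv_bound k Y _ _ c1 c2 i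
      simpa using hmem
    · intro z hz z' hz' hzz
      have hz1 := mem_filter.mp (by simpa using hz : z ∈ {z ∈ tup (Icc (q + 1) (q + Y)) s ×ˢ
        tup (Icc (q + 1) (q + Y)) s | sm' (psq N) z.1 = sm' (psq N) z.2})
      have hz2 := mem_filter.mp (by simpa using hz' : z' ∈ {z ∈ tup (Icc (q + 1) (q + Y)) s ×ˢ
        tup (Icc (q + 1) (q + Y)) s | sm' (psq N) z.1 = sm' (psq N) z.2})
      have a1 := mem_product.mp hz1.1
      have a2 := mem_product.mp hz2.1
      have hzz' := Prod.ext_iff.mp hzz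
      apply Prod.ext
      · funext a
        have b1 := congrFun hzz'.1 a
        have b2 := mem_Icc.mp (mem_tup.mp a1.1 a)
        have b3 := mem_Icc.mp (mem_tup.mp a2.1 a)
        simp only at b1
        omega
      · funext a
        have b1 := congrFun hzz'.2 a
        have b2 := mem_Icc.mp (mem_tup.mp a1.2 a)
        have b3 := mem_Icc.mp (mem_tup.mp a2.2 a)
        simp only at b1
        omega
  have h2 : #S ≤ #W * JV s k Y := by
    have hmaps : ∀ z ∈ S, wv k z.1 z.2 ∈ W := fun z hz => (mem_filter.mp hz).2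
    rw [Finset.card_eq_sum_card_fiberwise hmaps, ← smul_eq_mul, ← Finset.sum_const]
    apply Finset.sum_le_sum
    intro w _
    refine le_trans (Finset.card_le_card ?_) (fiber_le s k Y w)
    intro z hz
    have hz' := mem_filter.mp hz
    rw [mem_filter]
    exact ⟨(mem_filter.mp hz'.1).1, hz'.2⟩
  refine h1.trans (h2.trans (Nat.mul_le_mul_right _ ?_))
  exact count_le q hq k (fun i => (k + 1).factorial * s * Y ^ ((i : ℕ) + 1)) T

end Pool.Agent.Helper73.HM
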