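import Mathlib

/-!
# Numerical inequalities of the HM block
-/

namespace Pool.Agent.Helper73.HM

open Finset

theorem fact_le_exp (k : ℕ) (hk : 1 ≤ k) : ((k + 1).factorial : ℝ) ≤ Real.exp ((k : ℝ) * (k + 1)) := by
  have h1 : ((k + 1).factorial : ℝ) ≤ ((k : ℝ) + 1) ^ (k + 1) := by
    have := Nat.factorial_le_pow (k + 1)
    have h2 : ((k + 1).factorial : ℝ) ≤ (((k + 1) ^ (k + 1) : ℕ) : ℝ) := by exact_mod_cast this
    rw [Nat.cast_pow] at h2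
    push_cast at h2
    exact h2
  have h3 : (k : ℝ) + 1 ≤ Real.exp k := Real.add_one_le_exp _
  calc ((k + 1).factorial : ℝ) ≤ ((k : ℝ) + 1) ^ (k + 1) := h1
    _ ≤ (Real.exp k) ^ (k + 1) := pow_le_pow_left₀ (by positivity) h3 _
    _ = Real.exp ((k : ℝ) * (k + 1)) := by
        rw [← Real.exp_nat_mul]; congr 1; push_cast; ring

theorem const_le (C : ℝ) (k H : ℕ) (hk : 2 ≤ k) (hH : 1 ≤ H) :
    (H : ℝ) ^ (2 * k ^ 3) * (H : ℝ) ^ (k + 1) * (35 * (k : ℝ) ^ 3 * (4 / 3) ^ (k + 2) *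
      ((k + 1).factorial : ℝ) * (4 * ((k + 1).factorial : ℝ) * (k : ℝ) ^ 3) ^ k *
      Real.exp (C * (k : ℝ) ^ 10)) ≤
    Real.exp ((C + 21) * (k : ℝ) ^ 10) * (H : ℝ) ^ (4 * k ^ 3) * (3 / 4) ^ (2 * k ^ 3) := by
  have hH1 : (1 : ℝ) ≤ H := by exact_mod_cast hH
  have hk1 : (2 : ℝ) ≤ k := by exact_mod_cast hk
  have hkk : k + 1 ≤ 2 * k ^ 3 := by
    have : 2 ≤ k ^ 3 := by nlinarith [Nat.pow_le_pow_left hk 3]
    have : k ≤ k ^ 3 := Nat.le_self_pow (by norm_num) k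
    omega
  have hHp : (H : ℝ) ^ (2 * k ^ 3) * (H : ℝ) ^ (k + 1) ≤ (H : ℝ) ^ (4 * k ^ 3) := by
    rw [← pow_add]
    exact pow_le_pow_right₀ hH1 (by omega)
  have hf := fact_le_exp k (by omega)
  have hk3 : (k : ℝ) ^ 3 ≤ Real.exp (3 * k) := by
    have h3 : (k : ℝ) ≤ Real.exp k := by linarith [Real.add_one_le_exp (k : ℝ)]
    calc (k : ℝ) ^ 3 ≤ (Real.exp k) ^ 3 := pow_le_pow_left₀ (by positivity) h3 _
      _ = Real.exp (3 * k) := by rw [← Real.exp_nat_mul]; norm_num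
  have e1 : (2.7182818283 : ℝ) < Real.exp 1 := Real.exp_one_gt_d9
  have h35 : (35 : ℝ) ≤ Real.exp 4 := by
    have : Real.exp 4 = (Real.exp 1) ^ 4 := by rw [← Real.exp_nat_mul]; norm_num
    rw [this]
    calc (35 : ℝ) ≤ 2.7 ^ 4 := by norm_num
      _ ≤ (Real.exp 1) ^ 4 := pow_le_pow_left₀ (by norm_num) (by linarith) _
  have h4 : (4 : ℝ) ≤ Real.exp 2 := by
    have : Real.exp 2 = (Real.exp 1) ^ 2 := by rw [← Real.exp_nat_mul]; norm_num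
    rw [this]
    calc (4 : ℝ) ≤ 2.7 ^ 2 := by norm_num
      _ ≤ (Real.exp 1) ^ 2 := pow_le_pow_left₀ (by norm_num) (by linarith) _
  have h43 : ((4 : ℝ) / 3) ^ (k + 2) ≤ Real.exp (k + 2) := by
    calc ((4 : ℝ) / 3) ^ (k + 2) ≤ (Real.exp 1) ^ (k + 2) :=
          pow_le_pow_left₀ (by norm_num) (by linarith) _
      _ = Real.exp (k + 2) := by rw [← Real.exp_nat_mul]; push_cast; ring_nf
  have h34 : Real.exp (-(2 * (k : ℝ) ^ 3)) ≤ (3 / 4 : ℝ) ^ (2 * k ^ 3) := by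
    have h5 : Real.exp (-1) ≤ 3 / 4 := by
      rw [Real.exp_neg, inv_le_comm₀ (Real.exp_pos _) (by norm_num)]
      linarith
    calc Real.exp (-(2 * (k : ℝ) ^ 3)) = (Real.exp (-1)) ^ (2 * k ^ 3) := by
          rw [← Real.exp_nat_mul]; push_cast; ring_nf
      _ ≤ (3 / 4 : ℝ) ^ (2 * k ^ 3) := pow_le_pow_left₀ (Real.exp_pos _).le h5 _
  have hA : (4 * ((k + 1).factorial : ℝ) * (k : ℝ) ^ 3) ^ k ≤
      Real.exp ((2 + (k : ℝ) * (k + 1) + 3 * k) * k) := by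
    calc (4 * ((k + 1).factorial : ℝ) * (k : ℝ) ^ 3) ^ k
        ≤ (Real.exp 2 * Real.exp ((k : ℝ) * (k + 1)) * Real.exp (3 * k)) ^ k := by
          apply pow_le_pow_left₀ (by positivity)
          exact mul_le_mul (mul_le_mul h4 hf (by positivity) (Real.exp_pos _).le) hk3
            (by positivity) (by positivity)
      _ = Real.exp ((2 + (k : ℝ) * (k + 1) + 3 * k) * k) := by
          rw [← Real.exp_add, ← Real.exp_add, ← Real.exp_nat_mul]; ring_nf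
  have hB : 35 * (k : ℝ) ^ 3 * (4 / 3) ^ (k + 2) *
      ((k + 1).factorial : ℝ) * (4 * ((k + 1).factorial : ℝ) * (k : ℝ) ^ 3) ^ k *
      Real.exp (C * (k : ℝ) ^ 10) ≤
      Real.exp 4 * Real.exp (3 * k) * Real.exp (k + 2) * Real.exp ((k : ℝ) * (k + 1)) *
      Real.exp ((2 + (k : ℝ) * (k + 1) + 3 * k) * k) * Real.exp (C * (k : ℝ) ^ 10) := by
    gcongr
  have hC : Real.exp 4 * Real.exp (3 * k) * Real.exp (k + 2) * Real.exp ((k : ℝ) * (k + 1)) *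
      Real.exp ((2 + (k : ℝ) * (k + 1) + 3 * k) * k) * Real.exp (C * (k : ℝ) ^ 10) ≤
      Real.exp ((C + 21) * (k : ℝ) ^ 10) * Real.exp (-(2 * (k : ℝ) ^ 3)) := by
    rw [← Real.exp_add, ← Real.exp_add, ← Real.exp_add, ← Real.exp_add, ← Real.exp_add,
      ← Real.exp_add]
    apply Real.exp_le_exp.mpr
    have hk0 : (1 : ℝ) ≤ k := by linarith
    have p1 : (1 : ℝ) ≤ (k : ℝ) ^ 10 := one_le_pow₀ hk0
    have p2 : (k : ℝ) ≤ (k : ℝ) ^ 10 := by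
      calc (k : ℝ) = (k : ℝ) ^ 1 := (pow_one _).symm
        _ ≤ (k : ℝ) ^ 10 := pow_le_pow_right₀ hk0 (by norm_num)
    have p3 : (k : ℝ) ^ 2 ≤ (k : ℝ) ^ 10 := pow_le_pow_right₀ hk0 (by norm_num)
    have p4 : (k : ℝ) ^ 3 ≤ (k : ℝ) ^ 10 := pow_le_pow_right₀ hk0 (by norm_num)
    nlinarith [p1, p2, p3, p4]
  calc (H : ℝ) ^ (2 * k ^ 3) * (H : ℝ) ^ (k + 1) * (35 * (k : ℝ) ^ 3 * (4 / 3) ^ (k + 2) *
      ((k + 1).factorial : ℝ) * (4 * ((k + 1).factorial : ℝ) * (k : ℝ) ^ 3) ^ k *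
      Real.exp (C * (k : ℝ) ^ 10))
      ≤ (H : ℝ) ^ (4 * k ^ 3) * (Real.exp ((C + 21) * (k : ℝ) ^ 10) *
        Real.exp (-(2 * (k : ℝ) ^ 3))) :=
        mul_le_mul hHp (hB.trans hC) (by positivity) (by positivity)
    _ ≤ (H : ℝ) ^ (4 * k ^ 3) * (Real.exp ((C + 21) * (k : ℝ) ^ 10) *
        (3 / 4) ^ (2 * k ^ 3)) := by gcongr
    _ = _ := by ring

theorem sum_pred (k : ℕ) (hk : 1 ≤ k) :
    ((∑ i ∈ Finset.range k, (i - 1) : ℕ) : ℝ) = ((k : ℝ) - 1) * ((k : ℝ) - 2) / 2 := by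
  obtain ⟨m, rfl⟩ := Nat.exists_eq_add_of_le' hk
  rw [Finset.sum_range_succ']
  simp only [Nat.add_sub_cancel, Nat.zero_sub, Nat.add_zero]
  have := Finset.sum_range_id_mul_two m
  have h2 : ((∑ i ∈ Finset.range m, i : ℕ) : ℝ) * 2 = m * (m - 1 : ℕ) := by exact_mod_cast this
  rcases Nat.eq_zero_or_pos m with h0 | h0
  · subst h0; simp
  · have h3 : ((m - 1 : ℕ) : ℝ) = (m : ℝ) - 1 := by rw [Nat.cast_sub h0]; simp
    rw [h3] at h2
    push_cast at h2 ⊢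
    nlinarith

end Pool.Agent.Helper73.HM
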