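import Mathlib
import Pool.Agent.Helper73.HM.FixedQ
import Pool.Agent.Helper73.HM.CoverStep
import Pool.Agent.Helper73.HM.Numeric

/-!
# HM: the high moments of `e(α log (q / (q - 1)))`
-/

namespace Pool.Agent.Helper73.HM

open Finset Pool.Agent.Helper58.LT

theorem prod_bound (k F Y q0 : ℕ) (y : ℝ) (hy : 4 ≤ y) (hF : 1 ≤ F) (hYy : (Y : ℝ) ≤ y)
    (hq0 : 3 / 4 * y ^ 2 ≤ q0) :
    ((∏ i : Fin k, (if (i : ℕ) = 0 then 1 else (2 * (F * Y ^ ((i : ℕ) + 1)) / q0 + 1)) : ℕ) : ℝ) ≤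
      (4 * F) ^ k * y ^ (∑ i ∈ Finset.range k, (i - 1)) := by
  have hF1 : (1 : ℝ) ≤ F := by exact_mod_cast hF
  have hq0' : (0 : ℝ) < q0 := lt_of_lt_of_le (by positivity) hq0
  rw [Nat.cast_prod]
  calc ∏ i : Fin k, (((if (i : ℕ) = 0 then 1 else (2 * (F * Y ^ ((i : ℕ) + 1)) / q0 + 1)) : ℕ) : ℝ)
      ≤ ∏ i : Fin k, (4 * (F : ℝ) * y ^ ((i : ℕ) - 1)) := by
        apply Finset.prod_le_prod
        · intro i _; positivity
        · intro i _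
          have hyp : (1 : ℝ) ≤ y ^ ((i : ℕ) - 1) := one_le_pow₀ (by linarith)
          split_ifs with h0
          · push_cast
            nlinarith
          · have h1 : ((2 * (F * Y ^ ((i : ℕ) + 1)) / q0 : ℕ) : ℝ) ≤
                (2 * ((F : ℝ) * (Y : ℝ) ^ ((i : ℕ) + 1))) / q0 := by
              refine Nat.cast_div_le.trans ?_
              push_cast
              exact le_refl _
            have h2 : (Y : ℝ) ^ ((i : ℕ) + 1) ≤ y ^ ((i : ℕ) - 1) * y ^ 2 := by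
              rw [← pow_add]
              have : (i : ℕ) - 1 + 2 = (i : ℕ) + 1 := by omega
              rw [this]
              exact pow_le_pow_left₀ (by positivity) hYy _
            have h3 : (2 * ((F : ℝ) * (Y : ℝ) ^ ((i : ℕ) + 1))) / q0 ≤
                8 / 3 * F * y ^ ((i : ℕ) - 1) := by
              rw [div_le_iff₀ hq0']
              calc 2 * ((F : ℝ) * (Y : ℝ) ^ ((i : ℕ) + 1))
                  ≤ 2 * ((F : ℝ) * (y ^ ((i : ℕ) - 1) * y ^ 2)) := by gcongr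
                _ = 8 / 3 * F * y ^ ((i : ℕ) - 1) * (3 / 4 * y ^ 2) := by ring
                _ ≤ 8 / 3 * F * y ^ ((i : ℕ) - 1) * q0 := by gcongr
            push_cast
            have h4 : (1 : ℝ) ≤ 4 / 3 * F * y ^ ((i : ℕ) - 1) := by nlinarith
            linarith
    _ = (4 * F) ^ k * y ^ (∑ i ∈ Finset.range k, (i - 1)) := by
        rw [Finset.prod_mul_distrib, Finset.prod_const, Finset.card_univ, Fintype.card_fin]
        congr 1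
        rw [← Finset.prod_pow_eq_pow_sum, ← Fin.prod_univ_eq_prod_range (fun i => y ^ (i - 1)) k]

theorem t_bound (k s q N Y : ℕ) (y X : ℝ) (hy : 4 ≤ y) (hYy : (Y : ℝ) ≤ y)
    (hq : 3 / 4 * y ^ 2 ≤ q) (hqX : (q : ℝ) ≤ X) (hN : 1 ≤ N) (hNy : (N : ℝ) ≤ y ^ (k + 2)) :
    ((k + 1).factorial : ℝ) * (q : ℝ) ^ (k + 1) * (s / N + 6 * s * ((Y : ℝ) / q) ^ (k + 2)) ≤
      ((k + 1).factorial : ℝ) * X ^ (k + 1) * (7 * s * (4 / 3) ^ (k + 2) / N) := by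
  have hN0 : (0 : ℝ) < N := by exact_mod_cast hN
  have hq0 : (0 : ℝ) < q := lt_of_lt_of_le (by positivity) hq
  have hy0 : 0 < y := by linarith
  have h1 : (Y : ℝ) / q ≤ (4 / 3) / y := by
    rw [div_le_div_iff₀ hq0 hy0]
    nlinarith
  have h2 : ((Y : ℝ) / q) ^ (k + 2) ≤ (4 / 3) ^ (k + 2) / N := by
    calc ((Y : ℝ) / q) ^ (k + 2) ≤ ((4 / 3) / y) ^ (k + 2) := pow_le_pow_left₀ (by positivity) h1 _
      _ = (4 / 3) ^ (k + 2) / y ^ (k + 2) := by rw [div_pow]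
      _ ≤ (4 / 3) ^ (k + 2) / N := by
          apply div_le_div_of_nonneg_left (by positivity) hN0 hNy
  have h3 : (s : ℝ) / N ≤ s * ((4 / 3) ^ (k + 2) / N) := by
    rw [mul_div_assoc']
    apply div_le_div_of_nonneg_right _ hN0.le
    have : (1 : ℝ) ≤ (4 / 3) ^ (k + 2) := one_le_pow₀ (by norm_num)
    nlinarith [Nat.cast_nonneg (α := ℝ) s]
  have h4 : (s : ℝ) / N + 6 * s * ((Y : ℝ) / q) ^ (k + 2) ≤ 7 * s * (4 / 3) ^ (k + 2) / N := by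
    have h5 : 6 * (s : ℝ) * ((Y : ℝ) / q) ^ (k + 2) ≤ 6 * s * ((4 / 3) ^ (k + 2) / N) :=
      mul_le_mul_of_nonneg_left h2 (by positivity)
    calc (s : ℝ) / N + 6 * s * ((Y : ℝ) / q) ^ (k + 2)
        ≤ s * ((4 / 3) ^ (k + 2) / N) + 6 * s * ((4 / 3) ^ (k + 2) / N) := add_le_add h3 h5
      _ = 7 * s * (4 / 3) ^ (k + 2) / N := by ring
  have hX : (q : ℝ) ^ (k + 1) ≤ X ^ (k + 1) := pow_le_pow_left₀ hq0.le hqX _
  have h6 : 0 ≤ (s : ℝ) / N + 6 * s * ((Y : ℝ) / q) ^ (k + 2) := by positivity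
  calc ((k + 1).factorial : ℝ) * (q : ℝ) ^ (k + 1) * (s / N + 6 * s * ((Y : ℝ) / q) ^ (k + 2))
      ≤ ((k + 1).factorial : ℝ) * X ^ (k + 1) * (s / N + 6 * s * ((Y : ℝ) / q) ^ (k + 2)) := by
        gcongr
    _ ≤ _ := by
        apply mul_le_mul_of_nonneg_left h4
        have : 0 ≤ X := hq0.le.trans hqX
        positivity

/-- **HM**, conditionally on the weak mean value theorem of Vinogradov. -/
theorem HM_of_vmvt (hv : ∃ C : ℝ, 0 < C ∧ ∀ k X : ℕ, 1 ≤ k → 1 ≤ X →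
      (JV (k ^ 3) k X : ℝ) ≤ Real.exp (C * (k : ℝ) ^ 10) *
        (X : ℝ) ^ ((2 : ℝ) * (k : ℝ) ^ 3 - (k : ℝ) * ((k : ℝ) + 1) / 2 + 1 / 2)) :
    ∃ C : ℝ, 0 < C ∧ ∀ k Q N H : ℕ, 2 ≤ k → 16 ≤ Q → 1 ≤ N → 1 ≤ H →
      (N : ℝ) ≤ (Q : ℝ) ^ (((k : ℝ) + 2) / 2) →
      ∀ I : Finset ℕ, I ⊆ Icc Q (H * Q) →
        (Js I (psq N) (k ^ 3) : ℝ) ≤ Real.exp (C * (k : ℝ) ^ 10) * (H : ℝ) ^ (4 * k ^ 3) *
          (Q : ℝ) ^ ((2 : ℝ) * (k : ℝ) ^ 3 + 7 / 4) / N := by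
  obtain ⟨C, hC0, hv⟩ := hv
  refine ⟨C + 21, by linarith, ?_⟩
  intro k Q N H hk hQ hN hH hNQ I hI
  set s := k ^ 3 with hs
  set F := (k + 1).factorial * s with hF
  have hs1 : 1 ≤ s := Nat.one_le_pow _ _ (by omega)
  have hF1 : 1 ≤ F := Nat.one_le_iff_ne_zero.mpr
    (Nat.mul_ne_zero (Nat.factorial_pos _).ne' (by omega))
  set Y := Nat.sqrt Q with hY
  set y : ℝ := Real.sqrt Q with hy
  have hQ0 : (0 : ℝ) ≤ Q := Nat.cast_nonneg _
  have hy2 : y ^ 2 = Q := Real.sq_sqrt hQ0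
  have hy4 : 4 ≤ y := by
    rw [hy]; apply Real.le_sqrt_of_sq_le
    have : (16 : ℝ) ≤ Q := by exact_mod_cast hQ
    linarith
  have hy0 : 0 < y := by linarith
  have hYy : (Y : ℝ) ≤ y := by
    rw [hy]; apply Real.le_sqrt_of_sq_le
    have := Nat.sqrt_le' Q
    exact_mod_cast this
  have hYy' : 3 / 4 * y ≤ Y := by
    have h1 : (Q : ℝ) ≤ ((Y : ℝ) + 1) ^ 2 := by
      have := (Nat.lt_succ_sqrt' Q).le
      have h2 : ((Q : ℕ) : ℝ) ≤ (((Nat.sqrt Q).succ ^ 2 : ℕ) : ℝ) := by exact_mod_cast this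
      push_cast at h2
      exact h2
    have h3 : y ≤ Y + 1 := by
      rw [hy]; exact Real.sqrt_le_left (by positivity) |>.mpr h1 |> fun h => h
    linarith
  have hY4 : 4 * Y ≤ Q := by
    have h1 : (4 : ℝ) * Y ≤ Q := by rw [← hy2]; nlinarith
    exact_mod_cast h1
  have hY1 : 1 ≤ Y := by
    have : (0 : ℝ) < Y := lt_of_lt_of_le (by positivity) hYy'
    have : 0 < Y := by exact_mod_cast this
    omega
  have hN0 : (0 : ℝ) < N := by exact_mod_cast hN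
  have hNy : (N : ℝ) ≤ y ^ (k + 2) := by
    refine hNQ.trans (le_of_eq ?_)
    rw [hy, Real.sqrt_eq_rpow, ← Real.rpow_natCast, ← Real.rpow_mul hQ0]
    congr 1
    push_cast; ring
  -- T
  set R1 : ℝ := ((k + 1).factorial : ℝ) * ((H : ℝ) * Q) ^ (k + 1) *
    (7 * s * (4 / 3) ^ (k + 2) / N) with hR1
  set T : ℕ := ⌈R1⌉₊ with hT
  have hTR : R1 ≤ T := Nat.le_ceil _
  set P0 : ℕ := ∏ i : Fin k, (if (i : ℕ) = 0 then 1 else
    (2 * (F * Y ^ ((i : ℕ) + 1)) / (Q - Y) + 1)) with hP0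
  set M : ℕ := ((2 * T + 1) * P0) * JV s k Y with hM
  have hq34 : ∀ q : ℕ, Q - Y ≤ q → 3 / 4 * y ^ 2 ≤ (q : ℝ) := by
    intro q hq
    have h1 : 3 * Q ≤ 4 * q := by omega
    have h2 : (3 : ℝ) * Q ≤ 4 * q := by exact_mod_cast h1
    rw [hy2]; linarith
  have hMb : ∀ q, Q - Y ≤ q → q ≤ H * Q → Js (Icc (q + 1) (q + Y)) (psq N) s ≤ M := by
    intro q hq1 hq2
    have hq2' : (q : ℝ) ≤ (H : ℝ) * Q := by exact_mod_cast hq2
    have h1 := t_bound k s q N Y y ((H : ℝ) * Q) hy4 hYy (hq34 q hq1) hq2' hN hNy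
    have h2 := fixed_q k q Y N s hN hY1 (by omega) T (h1.trans hTR)
    refine h2.trans ?_
    rw [hM, hP0]
    apply Nat.mul_le_mul_right
    apply Nat.mul_le_mul_left
    apply Finset.prod_le_prod'
    intro i _
    split_ifs with h0
    · exact le_refl _
    · apply Nat.add_le_add_right
      rw [hF]
      exact Nat.div_le_div_left hq1 (by omega)
  have hcov := cover_bound Q N H s hQ hH hs1 I hI M hMb
  -- real form
  have hcov' : (Y : ℝ) ^ (2 * s) * (Js I (psq N) s : ℝ) ≤ ((H : ℝ) * Q) ^ (2 * s) * M := by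
    exact_mod_cast hcov
  -- bound for M
  have hR1pos : 1 ≤ R1 := by
    have h1 : (1 : ℝ) ≤ ((k + 1).factorial : ℝ) := by exact_mod_cast Nat.factorial_pos _
    have h2 : (1 : ℝ) ≤ (H : ℝ) := by exact_mod_cast hH
    have h3 : (N : ℝ) ≤ ((H : ℝ) * Q) ^ (k + 1) := by
      calc (N : ℝ) ≤ y ^ (k + 2) := hNy
        _ ≤ y ^ (2 * (k + 1)) := pow_le_pow_right₀ (by linarith) (by omega)
        _ = (Q : ℝ) ^ (k + 1) := by rw [pow_mul, hy2]
        _ ≤ ((H : ℝ) * Q) ^ (k + 1) := pow_le_pow_left₀ hQ0 (by nlinarith) _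
    have h4 : (1 : ℝ) ≤ (4 / 3) ^ (k + 2) := one_le_pow₀ (by norm_num)
    have h5 : (1 : ℝ) ≤ (s : ℝ) := by exact_mod_cast hs1
    have h6 : (1 : ℝ) / N ≤ 7 * s * (4 / 3) ^ (k + 2) / N := by
      apply div_le_div_of_nonneg_right _ hN0.le
      nlinarith [mul_le_mul h5 h4 (by norm_num) (by positivity)]
    calc (1 : ℝ) = 1 * N * (1 / N) := by field_simp
      _ ≤ ((k + 1).factorial : ℝ) * ((H : ℝ) * Q) ^ (k + 1) * (7 * s * (4 / 3) ^ (k + 2) / N) := by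
          gcongr
  have hT5 : (2 * (T : ℝ) + 1) ≤ 5 * R1 := by
    have := Nat.ceil_lt_add_one (show 0 ≤ R1 by linarith)
    linarith
  have hP : (P0 : ℝ) ≤ (4 * F) ^ k * y ^ (∑ i ∈ Finset.range k, (i - 1)) :=
    prod_bound k F Y (Q - Y) y hy4 hF1 hYy (hq34 (Q - Y) le_rfl)
  set e : ℝ := (2 : ℝ) * (k : ℝ) ^ 3 - (k : ℝ) * ((k : ℝ) + 1) / 2 + 1 / 2 with he
  have hk2 : (2 : ℝ) ≤ k := by exact_mod_cast hk
  have he0 : 0 ≤ e := by
    rw [he]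
    have h7 : (k : ℝ) ^ 3 = k * k * k := by ring
    rw [h7]
    nlinarith [mul_nonneg (show (0 : ℝ) ≤ k - 2 by linarith) (show (0 : ℝ) ≤ (k : ℝ) * k by positivity),
      mul_nonneg (show (0 : ℝ) ≤ k - 2 by linarith) (show (0 : ℝ) ≤ (k : ℝ) by positivity)]
  have hJ : (JV s k Y : ℝ) ≤ Real.exp (C * (k : ℝ) ^ 10) * y ^ e := by
    refine (hv k Y (by omega) hY1).trans ?_
    apply mul_le_mul_of_nonneg_left _ (Real.exp_pos _).le
    exact Real.rpow_le_rpow (Nat.cast_nonneg _) hYy he0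
  have hMr : (M : ℝ) ≤ 5 * R1 * ((4 * F) ^ k * y ^ (∑ i ∈ Finset.range k, (i - 1))) *
      (Real.exp (C * (k : ℝ) ^ 10) * y ^ e) := by
    rw [hM]
    push_cast
    have ha : 0 ≤ 5 * R1 := by linarith
    gcongr
  -- conclusion
  have hYs : (3 / 4 * y) ^ (2 * s) * (Js I (psq N) s : ℝ) ≤ ((H : ℝ) * Q) ^ (2 * s) * M := by
    refine le_trans ?_ hcov'
    gcongr
  have hpos : 0 < (3 / 4 * y) ^ (2 * s) := by positivity
  have hconst := const_le C k H hk hH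
  rw [← hs] at hconst
  have hs' : ((s : ℕ) : ℝ) = (k : ℝ) ^ 3 := by rw [hs]; push_cast; ring
  have hF' : ((F : ℕ) : ℝ) = ((k + 1).factorial : ℝ) * (k : ℝ) ^ 3 := by
    rw [hF]; push_cast; rw [hs']
  -- powers of y
  have hpow : ((Q : ℝ)) ^ (2 * s) * (Q : ℝ) ^ (k + 1) * y ^ (∑ i ∈ Finset.range k, (i - 1)) * y ^ e =
      y ^ (2 * s) * (Q : ℝ) ^ ((2 : ℝ) * (k : ℝ) ^ 3 + 7 / 4) := by
    have e1 : (Q : ℝ) ^ ((2 : ℝ) * (k : ℝ) ^ 3 + 7 / 4) = y ^ (2 * ((2 : ℝ) * (k : ℝ) ^ 3 + 7 / 4)) := by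
      rw [← hy2, ← Real.rpow_natCast, ← Real.rpow_mul hy0.le]; norm_num
    rw [e1, ← hy2, ← pow_mul, ← pow_mul, ← Real.rpow_natCast y (2 * (2 * s)),
      ← Real.rpow_natCast y (2 * (k + 1)), ← Real.rpow_natCast y (∑ i ∈ Finset.range k, (i - 1)),
      ← Real.rpow_natCast y (2 * s), sum_pred k (by omega), ← Real.rpow_add hy0,
      ← Real.rpow_add hy0, ← Real.rpow_add hy0, ← Real.rpow_add hy0]
    congr 1
    rw [he]
    push_cast
    rw [hs']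
    ring
  have hfin : ((H : ℝ) * Q) ^ (2 * s) * M ≤ (3 / 4 * y) ^ (2 * s) *
      (Real.exp ((C + 21) * (k : ℝ) ^ 10) * (H : ℝ) ^ (4 * s) *
          (Q : ℝ) ^ ((2 : ℝ) * (k : ℝ) ^ 3 + 7 / 4) / N) := by
    calc ((H : ℝ) * Q) ^ (2 * s) * M
        ≤ ((H : ℝ) * Q) ^ (2 * s) * (5 * R1 * ((4 * F) ^ k *
          y ^ (∑ i ∈ Finset.range k, (i - 1))) * (Real.exp (C * (k : ℝ) ^ 10) * y ^ e)) := by
          gcongr
      _ = ((H : ℝ) ^ (2 * s) * (H : ℝ) ^ (k + 1) * (35 * (k : ℝ) ^ 3 * (4 / 3) ^ (k + 2) *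
            ((k + 1).factorial : ℝ) * (4 * ((k + 1).factorial : ℝ) * (k : ℝ) ^ 3) ^ k *
            Real.exp (C * (k : ℝ) ^ 10))) *
          ((Q : ℝ) ^ (2 * s) * (Q : ℝ) ^ (k + 1) * y ^ (∑ i ∈ Finset.range k, (i - 1)) * y ^ e) / N := by
          rw [hR1, hF', hs', mul_pow (H : ℝ), mul_pow (H : ℝ)]
          ring
      _ ≤ (Real.exp ((C + 21) * (k : ℝ) ^ 10) * (H : ℝ) ^ (4 * s) * (3 / 4) ^ (2 * s)) *
          ((Q : ℝ) ^ (2 * s) * (Q : ℝ) ^ (k + 1) * y ^ (∑ i ∈ Finset.range k, (i - 1)) * y ^ e) / N := by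
          gcongr
      _ = _ := by
          rw [hpow, mul_pow]
          ring
  have := hYs.trans hfin
  exact le_of_mul_le_mul_left this hpos

end Pool.Agent.Helper73.HM
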