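import Mathlib
import Pool.Agent.Helper73.HM.Final
import Pool.Agent.Helper84.VM.Final

/-!
# HM, unconditionally
-/

namespace Pool.Agent.Helper73.HM

open Finset Pool.Agent.Helper58.LT

theorem HM : ∃ C : ℝ, 0 < C ∧ ∀ k Q N H : ℕ, 2 ≤ k → 16 ≤ Q → 1 ≤ N → 1 ≤ H →
      (N : ℝ) ≤ (Q : ℝ) ^ (((k : ℝ) + 2) / 2) →
      ∀ I : Finset ℕ, I ⊆ Icc Q (H * Q) →
        (Js I (psq N) (k ^ 3) : ℝ) ≤ Real.exp (C * (k : ℝ) ^ 10) * (H : ℝ) ^ (4 * k ^ 3) *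
          (Q : ℝ) ^ ((2 : ℝ) * (k : ℝ) ^ 3 + 7 / 4) / N := by
  apply HM_of_vmvt
  obtain ⟨C, hC, h⟩ := Pool.Agent.Helper84.VM.vmvt
  exact ⟨C, hC, fun k X hk hX => h k hk X hX⟩

end Pool.Agent.Helper73.HM
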